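import Mathlib
import Pool.Agent.Q157.YoudenData

/-!
# MP_a8a68c_co, Q1: a Youden-type design with three stages and three layers

We construct a `13 × 27` Youden-type design with `|𝓕| = |𝓖| = 3`.
-/

namespace Pool.Agent.Results.MP_a8a68c_co.ThreeByThree

open Matrix

section Defs

variable {Ω : Type} [Fintype Ω] [DecidableEq Ω]

/-- The incidence matrix `X_F` of a partition (given as an equivalence relation). -/
noncomputable def X (F : Setoid Ω) : Matrix Ω (Quotient F) ℝ :=
  open Classical in Matrix.of fun x p => if Quotient.mk F x = p then 1 else 0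

/-- The matrix `N_{FG} = X_Fᵀ X_G`. -/
noncomputable def N (F G : Setoid Ω) : Matrix (Quotient F) (Quotient G) ℝ := (X F)ᵀ * X G

/-- The column space `V_F` of `X_F`. -/
noncomputable def V (F : Setoid Ω) : Submodule ℝ (EuclideanSpace ℝ Ω) :=
  Submodule.span ℝ (Set.range fun p : Quotient F => WithLp.toLp 2 fun x => X F x p)

/-- The matrix of the orthogonal projection onto the sum of the spaces `V_L`, `L ∈ 𝓛`. -/
noncomputable def P (𝓛 : Set (Setoid Ω)) : Matrix Ω Ω ℝ :=
  Matrix.of fun x y => (⨆ L ∈ 𝓛, V L).starProjection (EuclideanSpace.single y 1) x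

/-- `Q_𝓛 = P_𝓛 - P_U`, where `U = ⊤` is the partition with one part. -/
noncomputable def Q (𝓛 : Set (Setoid Ω)) : Matrix Ω Ω ℝ := P 𝓛 - P {⊤}

/-- Completely symmetric matrices: `a I + b J`. -/
def CompletelySymmetric {ι : Type} (M : Matrix ι ι ℝ) : Prop :=
  open Classical in ∃ a b : ℝ, ∀ p q, M p q = (if p = q then a else 0) + b

/-- The mean entry of `N_{FG}`. -/
noncomputable def meanEntry (F G : Setoid Ω) : ℝ :=
  (∑ᶠ p, ∑ᶠ q, N F G p q) / (Nat.card (Quotient F) * Nat.card (Quotient G))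

/-- All parts of `F` have size `k`. -/
def PartSize (F : Setoid Ω) (k : ℕ) : Prop :=
  ∀ p : Quotient F, Nat.card {x // Quotient.mk F x = p} = k

/-- Universal balance. -/
structure UniversalBalance (𝓗 : Set (Setoid Ω)) : Prop where
  uniform : ∀ F ∈ 𝓗, ∃ k, PartSize F k
  rounding : ∀ F ∈ 𝓗, ∀ G ∈ 𝓗, F ≠ G → ∀ p q,
    N F G p q = ⌊meanEntry F G⌋ ∨ N F G p q = ⌈meanEntry F G⌉
  balance : ∀ F ∈ 𝓗, ∀ 𝓛 ⊆ 𝓗 \ {F}, 𝓛.Nonempty →
    CompletelySymmetric ((X F)ᵀ * (1 - P 𝓛) * X F) ∧ (X F)ᵀ * (1 - P 𝓛) * X F ≠ 0 ∧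
      ∃ μ : ℝ, 0 < μ ∧ μ < 1 ∧ Q {F} * Q 𝓛 * Q {F} = μ • Q {F}

/-- `n × m` Youden-type designs. -/
structure IsYouden (n m : ℕ) (𝓕 𝓖 : Set (Setoid Ω)) : Prop where
  one_le : 1 ≤ n
  lt : n < m
  card : Nat.card Ω = n * m
  partsF : ∀ F ∈ 𝓕, Nat.card (Quotient F) = m ∧ PartSize F n
  partsG : ∀ G ∈ 𝓖, Nat.card (Quotient G) = n ∧ PartSize G m
  orth : ∀ F ∈ 𝓕, ∀ G ∈ 𝓖, ∀ p q,
    Nat.card {x // Quotient.mk F x = p ∧ Quotient.mk G x = q} = 1
  balF : UniversalBalance 𝓕
  balG : UniversalBalance 𝓖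

end Defs

section General

variable {Ω : Type} [Fintype Ω]

theorem mem_V (F : Setoid Ω) {v : Ω → ℝ} (hv : ∀ x y, F x y → v x = v y) :
    WithLp.toLp 2 v ∈ V F := by
  classical
  have : Fintype (Quotient F) := Fintype.ofFinite _
  have : WithLp.toLp 2 v = ∑ p : Quotient F, v p.out • (WithLp.toLp 2 fun x => X F x p) := by
    ext x
    simp only [WithLp.ofLp_sum, WithLp.ofLp_smul, Finset.sum_apply, Pi.smul_apply, smul_eq_mul]
    rw [Finset.sum_eq_single (Quotient.mk F x)]
    · simp only [X, Matrix.of_apply, if_true, mul_one]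
      exact hv _ _ (F.symm' (Quotient.mk_out x))
    · intro p _ hp
      simp only [X, Matrix.of_apply, if_neg hp.symm, mul_zero]
    · intro h
      exact absurd (Finset.mem_univ _) h
  rw [this]
  refine Submodule.sum_mem _ fun p _ => Submodule.smul_mem _ _ (Submodule.subset_span ⟨p, rfl⟩)

theorem V_const (F : Setoid Ω) {v : EuclideanSpace ℝ Ω} (hv : v ∈ V F) :
    ∀ x y, F x y → v x = v y := by
  classical
  intro x y hxy
  induction hv using Submodule.span_induction with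
  | mem v hv =>
    obtain ⟨p, rfl⟩ := hv
    have : Quotient.mk F x = Quotient.mk F y := Quotient.sound hxy
    simp only [X, Matrix.of_apply]
    exact if_congr (by rw [this]) rfl rfl
  | zero => rfl
  | add v w _ _ h1 h2 => simp only [PiLp.add_apply, h1, h2]
  | smul c v _ h1 => simp only [PiLp.smul_apply, h1]

theorem proj_eq [DecidableEq Ω] (K : Submodule ℝ (EuclideanSpace ℝ Ω)) (M : Matrix Ω Ω ℝ)
    (hsym : Mᵀ = M) (hmem : ∀ y, (WithLp.toLp 2 fun x => M x y) ∈ K)
    (hfix : ∀ v ∈ K, M *ᵥ v.ofLp = v.ofLp) (x y : Ω) :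
    K.starProjection (EuclideanSpace.single y 1) x = M x y := by
  have h : K.starProjection (EuclideanSpace.single y 1) = WithLp.toLp 2 fun x => M x y := by
    refine Submodule.eq_starProjection_of_mem_of_inner_eq_zero (hmem y) fun w hw => ?_
    rw [inner_sub_left, sub_eq_zero]
    have h1 : (M *ᵥ w.ofLp) y = w.ofLp y := by rw [hfix w hw]
    rw [Matrix.mulVec, dotProduct] at h1
    simp only [EuclideanSpace.inner_single_left, map_one, one_mul]
    rw [← h1, PiLp.inner_apply]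
    refine Finset.sum_congr rfl fun z _ => ?_
    have h2 : M y z = M z y := by
      conv_lhs => rw [← hsym]
      rfl
    simp [h2, mul_comm]
  rw [h]

variable {ι ι' ι'' : Type} [DecidableEq ι] [DecidableEq ι'] [DecidableEq ι'']

/-- The orthogonal projection for the partition into the fibres of `f`, all of size `k`. -/
noncomputable def Pm (k : ℝ) (f : Ω → ι) : Matrix Ω Ω ℝ :=
  Matrix.of fun x y => if f x = f y then 1 / k else 0

theorem Pm_symm (k : ℝ) (f : Ω → ι) : (Pm k f)ᵀ = Pm k f := by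
  ext x y
  simp only [Pm, Matrix.transpose_apply, Matrix.of_apply, eq_comm]

/-- All fibres of `f` have size `k`. -/
def Fib (k : ℝ) (f : Ω → ι) : Prop := ∀ x, (∑ y, if f x = f y then (1 : ℝ) else 0) = k

theorem Pm_mulVec {k : ℝ} (hk0 : k ≠ 0) {f : Ω → ι} (hk : Fib k f) {v : Ω → ℝ}
    (hv : ∀ x y, f x = f y → v x = v y) : Pm k f *ᵥ v = v := by
  ext x
  rw [Matrix.mulVec, dotProduct]
  have : ∀ y, Pm k f x y * v y = (if f x = f y then (1 : ℝ) else 0) * (v x / k) := by
    intro y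
    simp only [Pm, Matrix.of_apply]
    by_cases h : f x = f y
    · rw [if_pos h, if_pos h, hv x y h]
      ring
    · rw [if_neg h, if_neg h, zero_mul, zero_mul]
  rw [Finset.sum_congr rfl fun y _ => this y, ← Finset.sum_mul, hk x]
  field_simp

theorem Pm_mul {k : ℝ} (hk0 : k ≠ 0) {f : Ω → ι} (hk : Fib k f) {β : Type} {A : Matrix Ω β ℝ}
    (hA : ∀ x x' y, f x = f x' → A x y = A x' y) : Pm k f * A = A := by
  ext x y
  have := congrFun (Pm_mulVec hk0 hk (v := fun z => A z y) fun x x' h => hA x x' y h) x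
  rw [← this]
  rfl

theorem Pm_idem {k : ℝ} (hk0 : k ≠ 0) {f : Ω → ι} (hk : Fib k f) :
    Pm k f * Pm k f = Pm k f := by
  refine Pm_mul hk0 hk fun x x' y h => ?_
  simp only [Pm, Matrix.of_apply, h]

theorem Pm_mul_const {k : ℝ} (f : Ω → ι) (A : Matrix Ω Ω ℝ) (x x' y : Ω) (h : f x = f x') :
    (Pm k f * A) x y = (Pm k f * A) x' y := by
  simp only [Matrix.mul_apply, Pm, Matrix.of_apply, h]

/-- The matrix of the projection onto the constants. -/
noncomputable def U (Ω : Type) [Fintype Ω] : Matrix Ω Ω ℝ :=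
  Pm (Fintype.card Ω : ℝ) fun _ : Ω => ()

theorem U_apply (x y : Ω) : U Ω x y = 1 / (Fintype.card Ω : ℝ) := by
  simp [U, Pm]

theorem fib_unit : Fib (Fintype.card Ω : ℝ) fun _ : Ω => () := by
  intro x
  simp

theorem Pm_U {k : ℝ} (hk0 : k ≠ 0) {f : Ω → ι} (hk : Fib k f) : Pm k f * U Ω = U Ω := by
  refine Pm_mul hk0 hk fun x x' y _ => ?_
  rw [U_apply, U_apply]

theorem U_Pm {k : ℝ} (hk0 : k ≠ 0) {f : Ω → ι} (hk : Fib k f) : U Ω * Pm k f = U Ω := by
  have h1 : (U Ω)ᵀ = U Ω := Pm_symm _ _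
  have := congrArg Matrix.transpose (Pm_U hk0 hk)
  rwa [Matrix.transpose_mul, Pm_symm, h1] at this

theorem U_U [Nonempty Ω] : U Ω * U Ω = U Ω :=
  Pm_idem (by exact_mod_cast Fintype.card_ne_zero) fib_unit

variable [DecidableEq Ω]

/-- Identification of the projection onto one space. -/
theorem P_single {k : ℝ} (hk0 : k ≠ 0) {f : Ω → ι} (hk : Fib k f) :
    P {Setoid.ker f} = Pm k f := by
  ext x y
  simp only [P, Matrix.of_apply]
  refine proj_eq _ _ (Pm_symm k f) ?_ ?_ x y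
  · intro y
    rw [iSup_singleton]
    refine mem_V _ fun x x' h => ?_
    have h' : f x = f x' := h
    simp only [Pm, Matrix.of_apply, h']
  · intro v hv
    rw [iSup_singleton] at hv
    exact Pm_mulVec hk0 hk fun x y h => V_const _ hv x y h

theorem P_top [Nonempty Ω] : P {(⊤ : Setoid Ω)} = U Ω := by
  have : (⊤ : Setoid Ω) = Setoid.ker fun _ : Ω => () := by
    ext x y
    simp [Setoid.ker_def]
  rw [this]
  exact P_single (by exact_mod_cast Fintype.card_ne_zero) fib_unit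

/-- Identification of the projection onto the sum of two spaces. -/
theorem P_pair [Nonempty Ω] {k ρ : ℝ} (hk0 : k ≠ 0) (hρ : ρ ≠ 1) {f g : Ω → ι} (hf : Fib k f)
    (hg : Fib k g)
    (hfg : (Pm k f - U Ω) * (Pm k g - U Ω) * (Pm k f - U Ω) = ρ • (Pm k f - U Ω))
    (hgf : (Pm k g - U Ω) * (Pm k f - U Ω) * (Pm k g - U Ω) = ρ • (Pm k g - U Ω)) :
    P {Setoid.ker f, Setoid.ker g} = U Ω + (1 / (1 - ρ)) • ((Pm k f - U Ω) + (Pm k g - U Ω) -
      (Pm k f - U Ω) * (Pm k g - U Ω) - (Pm k g - U Ω) * (Pm k f - U Ω)) := by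
  have hρ' : 1 - ρ ≠ 0 := sub_ne_zero.2 hρ.symm
  have hU : (U Ω)ᵀ = U Ω := Pm_symm _ _
  have hff := Pm_idem hk0 hf
  have hgg := Pm_idem hk0 hg
  have hfU := Pm_U hk0 hf
  have hUf := U_Pm hk0 hf
  have hgU := Pm_U hk0 hg
  have hUg := U_Pm hk0 hg
  have hUU := U_U (Ω := Ω)
  set A := Pm k f - U Ω with hA
  set B := Pm k g - U Ω with hB
  clear_value A B
  have hAA : A * A = A := by
    rw [hA, sub_mul, mul_sub, mul_sub, hff, hfU, hUf, hUU]
    abel
  have hBB : B * B = B := by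
    rw [hB, sub_mul, mul_sub, mul_sub, hgg, hgU, hUg, hUU]
    abel
  have hUA : U Ω * A = 0 := by rw [hA, mul_sub, hUf, hUU, sub_self]
  have hUB : U Ω * B = 0 := by rw [hB, mul_sub, hUg, hUU, sub_self]
  have hAU : A * U Ω = 0 := by rw [hA, sub_mul, hfU, hUU, sub_self]
  have hBU : B * U Ω = 0 := by rw [hB, sub_mul, hgU, hUU, sub_self]
  have hPf : Pm k f = A + U Ω := by rw [hA]; abel
  have hPg : Pm k g = B + U Ω := by rw [hB]; abel
  set M := U Ω + (1 / (1 - ρ)) • (A + B - A * B - B * A) with hM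
  have hMU : M * U Ω = U Ω := by
    rw [hM, add_mul, hUU, smul_mul_assoc, sub_mul, sub_mul, add_mul, mul_assoc, mul_assoc,
      hAU, hBU, mul_zero, mul_zero]
    simp
  have hMA : M * A = A := by
    rw [hM, add_mul, hUA, smul_mul_assoc, sub_mul, sub_mul, add_mul, hAA, hfg, mul_assoc, hAA]
    rw [show A + B * A - ρ • A - B * A = (1 - ρ) • A by rw [sub_smul, one_smul]; abel, smul_smul,
      one_div_mul_cancel hρ', one_smul, zero_add]
  have hMB : M * B = B := by
    rw [hM, add_mul, hUB, smul_mul_assoc, sub_mul, sub_mul, add_mul, hBB, hgf, mul_assoc, hBB]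
    rw [show A * B + B - A * B - ρ • B = (1 - ρ) • B by rw [sub_smul, one_smul]; abel, smul_smul,
      one_div_mul_cancel hρ', one_smul, zero_add]
  ext x y
  simp only [P, Matrix.of_apply]
  refine proj_eq _ _ ?_ ?_ ?_ x y
  · have hAt : Aᵀ = A := by rw [hA, Matrix.transpose_sub, Pm_symm, hU]
    have hBt : Bᵀ = B := by rw [hB, Matrix.transpose_sub, Pm_symm, hU]
    rw [hM, Matrix.transpose_add, Matrix.transpose_smul, Matrix.transpose_sub,
      Matrix.transpose_sub, Matrix.transpose_add, Matrix.transpose_mul, Matrix.transpose_mul, hAt,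
      hBt, hU]
    congr 2
    abel
  · intro y
    rw [iSup_pair]
    have h1 : ∀ C : Matrix Ω Ω ℝ, (WithLp.toLp 2 fun x => (Pm k f * C) x y) ∈
        V (Setoid.ker f) ⊔ V (Setoid.ker g) := fun C =>
      Submodule.mem_sup_left (mem_V _ fun x x' h => Pm_mul_const f C x x' y h)
    have h2 : ∀ C : Matrix Ω Ω ℝ, (WithLp.toLp 2 fun x => (Pm k g * C) x y) ∈
        V (Setoid.ker f) ⊔ V (Setoid.ker g) := fun C =>
      Submodule.mem_sup_right (mem_V _ fun x x' h => Pm_mul_const g C x x' y h)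
    have h3 : M = Pm k f * (U Ω + (1 / (1 - ρ)) • (A - A * B)) +
        Pm k g * ((1 / (1 - ρ)) • (B - B * A)) := by
      rw [hM, mul_add, hfU, mul_smul_comm, mul_smul_comm, hPf, hPg, add_mul, add_mul, mul_sub,
        mul_sub, mul_sub, mul_sub, ← mul_assoc, ← mul_assoc, ← mul_assoc, ← mul_assoc, hAA, hBB,
        hUA, hUB, zero_mul, zero_mul, sub_zero, add_zero, add_zero, add_assoc, ← smul_add]
      congr 2
      abel
    have h4 : (WithLp.toLp 2 fun x => M x y) =
        (WithLp.toLp 2 fun x => (Pm k f * (U Ω + (1 / (1 - ρ)) • (A - A * B))) x y) +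
        (WithLp.toLp 2 fun x => (Pm k g * ((1 / (1 - ρ)) • (B - B * A))) x y) := by
      ext x
      conv_lhs => rw [h3]
      rfl
    rw [h4]
    exact Submodule.add_mem _ (h1 _) (h2 _)
  · intro v hv
    rw [iSup_pair] at hv
    obtain ⟨v1, hv1, v2, hv2, rfl⟩ := Submodule.mem_sup.1 hv
    have e1 : Pm k f *ᵥ v1.ofLp = v1.ofLp := Pm_mulVec hk0 hf fun x y h => V_const _ hv1 x y h
    have e2 : Pm k g *ᵥ v2.ofLp = v2.ofLp := Pm_mulVec hk0 hg fun x y h => V_const _ hv2 x y h
    have hMf : M * Pm k f = Pm k f := by rw [hPf, mul_add, hMA, hMU]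
    have hMg : M * Pm k g = Pm k g := by rw [hPg, mul_add, hMB, hMU]
    rw [WithLp.ofLp_add, Matrix.mulVec_add]
    congr 1
    · rw [← e1, Matrix.mulVec_mulVec, hMf]
    · rw [← e2, Matrix.mulVec_mulVec, hMg]

omit [DecidableEq Ω] in
theorem X_one {F : Setoid Ω} {x : Ω} {p : Quotient F} (h : Quotient.mk F x = p) :
    X F x p = 1 := by
  simp only [X, Matrix.of_apply]
  rw [if_pos h]

omit [DecidableEq Ω] in
theorem X_zero {F : Setoid Ω} {x : Ω} {p : Quotient F} (h : Quotient.mk F x ≠ p) :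
    X F x p = 0 := by
  simp only [X, Matrix.of_apply]
  rw [if_neg h]

/-- From the relation on the projections to the balance conditions. -/
theorem final_step [Nonempty Ω] {k μ : ℝ} (hk0 : k ≠ 0) {h : Ω → ι} (hk : Fib k h)
    (hkc : k ≠ Fintype.card Ω) (𝓛 : Set (Setoid Ω)) (hμ0 : 0 < μ) (hμ1 : μ < 1)
    (hM : (Pm k h - U Ω) * (P 𝓛 - U Ω) * (Pm k h - U Ω) = μ • (Pm k h - U Ω))
    (hMU : P 𝓛 * U Ω = U Ω) (hUM : U Ω * P 𝓛 = U Ω) :
    CompletelySymmetric ((X (Setoid.ker h))ᵀ * (1 - P 𝓛) * X (Setoid.ker h)) ∧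
      (X (Setoid.ker h))ᵀ * (1 - P 𝓛) * X (Setoid.ker h) ≠ 0 ∧
      ∃ μ : ℝ, 0 < μ ∧ μ < 1 ∧
        Q {Setoid.ker h} * Q 𝓛 * Q {Setoid.ker h} = μ • Q {Setoid.ker h} := by
  classical
  have hUU := U_U (Ω := Ω)
  have hhU := Pm_U hk0 hk
  have hUh := U_Pm hk0 hk
  have hhh := Pm_idem hk0 hk
  have hc0 : (Fintype.card Ω : ℝ) ≠ 0 := by exact_mod_cast Fintype.card_ne_zero
  have h1 : Pm k h * (1 - P 𝓛) * Pm k h = (1 - μ) • (Pm k h - U Ω) := by
    have e1 : Pm k h * P 𝓛 * Pm k h = (Pm k h - U Ω) * (P 𝓛 - U Ω) * (Pm k h - U Ω) + U Ω := by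
      have e0 : U Ω * (P 𝓛 * Pm k h) = U Ω := by rw [← mul_assoc, hUM, hUh]
      simp only [sub_mul, mul_sub, hhU, hUh, hUU, hUM, mul_assoc, hMU, e0]
      abel
    rw [mul_sub, sub_mul, mul_one, hhh, e1, hM, sub_smul, one_smul]
    abel
  set F := Setoid.ker h with hF
  have hX : Pm k h * X F = X F := by
    refine Pm_mul hk0 hk fun x x' p e => ?_
    have e' : Quotient.mk F x = Quotient.mk F x' := Quotient.sound e
    by_cases hp : Quotient.mk F x = p
    · rw [X_one hp, X_one (e'.symm.trans hp)]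
    · rw [X_zero hp, X_zero fun h => hp (e'.trans h)]
  have hXt : (X F)ᵀ * Pm k h = (X F)ᵀ := by
    have := congrArg Matrix.transpose hX
    rwa [Matrix.transpose_mul, Pm_symm] at this
  have h2 : (X F)ᵀ * (1 - P 𝓛) * X F = (1 - μ) • ((X F)ᵀ * X F - (X F)ᵀ * U Ω * X F) := by
    calc (X F)ᵀ * (1 - P 𝓛) * X F = ((X F)ᵀ * Pm k h) * (1 - P 𝓛) * (Pm k h * X F) := by
          rw [hXt, hX]
      _ = (X F)ᵀ * (Pm k h * (1 - P 𝓛) * Pm k h) * X F := by simp only [Matrix.mul_assoc]
      _ = (1 - μ) • ((X F)ᵀ * X F - (X F)ᵀ * U Ω * X F) := by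
          rw [h1, Matrix.mul_smul, Matrix.smul_mul, Matrix.mul_sub, hXt, Matrix.sub_mul]
  have hfib : ∀ p : Quotient F, ∑ x, X F x p = k := by
    intro p
    induction p using Quotient.inductionOn with
    | h y =>
      rw [← hk y]
      refine Finset.sum_congr rfl fun x _ => ?_
      by_cases e : h y = h x
      · rw [if_pos e, X_one (Quotient.sound (e.symm : h x = h y))]
      · rw [if_neg e, X_zero fun e' => e (Quotient.exact e' : h x = h y).symm]
  have e2 : ∀ p q : Quotient F, ((X F)ᵀ * U Ω * X F) p q = k ^ 2 / Fintype.card Ω := by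
    intro p q
    rw [Matrix.mul_apply]
    have : ∀ y, ((X F)ᵀ * U Ω) p y = k / Fintype.card Ω := by
      intro y
      rw [Matrix.mul_apply]
      simp only [U_apply, Matrix.transpose_apply]
      rw [← Finset.sum_mul, hfib p]
      ring
    simp only [this]
    rw [← Finset.mul_sum, hfib q]
    ring
  have e1 : ∀ p : Quotient F, ((X F)ᵀ * X F) p p = k := by
    intro p
    rw [Matrix.mul_apply, ← hfib p]
    refine Finset.sum_congr rfl fun x _ => ?_
    rw [Matrix.transpose_apply]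
    by_cases e : Quotient.mk F x = p
    · rw [X_one e, mul_one]
    · rw [X_zero e, mul_zero]
  have e3 : ∀ p q : Quotient F, p ≠ q → ((X F)ᵀ * X F) p q = 0 := by
    intro p q hpq
    rw [Matrix.mul_apply]
    refine Finset.sum_eq_zero fun x _ => ?_
    rw [Matrix.transpose_apply]
    by_cases e : Quotient.mk F x = p
    · rw [X_zero (p := q) fun e' => hpq (e.symm.trans e'), mul_zero]
    · rw [X_zero (p := p) e, zero_mul]
  have h3 : ∀ p : Quotient F, ((X F)ᵀ * ((1 : Matrix Ω Ω ℝ) - P 𝓛) * X F) p p =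
      (1 - μ) * k + -((1 - μ) * (k ^ 2 / Fintype.card Ω)) := by
    intro p
    rw [h2, Matrix.smul_apply, Matrix.sub_apply, smul_eq_mul, e1, e2]
    ring
  have h4 : ∀ p q : Quotient F, p ≠ q →
      ((X F)ᵀ * ((1 : Matrix Ω Ω ℝ) - P 𝓛) * X F) p q =
      0 + -((1 - μ) * (k ^ 2 / Fintype.card Ω)) := by
    intro p q hpq
    rw [h2, Matrix.smul_apply, Matrix.sub_apply, smul_eq_mul, e3 p q hpq, e2]
    ring
  refine ⟨⟨(1 - μ) * k, -((1 - μ) * (k ^ 2 / Fintype.card Ω)), fun p q => ?_⟩, ?_, μ, hμ0, hμ1,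
    ?_⟩
  · by_cases hpq : p = q
    · subst hpq
      rw [if_pos rfl, h3]
    · rw [if_neg hpq, h4 p q hpq]
  · intro h0
    have x0 : Ω := Classical.arbitrary Ω
    have := h3 (Quotient.mk F x0)
    rw [h0, Matrix.zero_apply] at this
    have h5 : (1 - μ) * k * (Fintype.card Ω - k) = 0 := by
      field_simp at this
      linear_combination -this
    rcases mul_eq_zero.1 h5 with h5 | h5
    · rcases mul_eq_zero.1 h5 with h6 | h6
      · linarith
      · exact hk0 h6
    · exact hkc (by linarith)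
  · rw [Q, Q, P_top, P_single hk0 hk]
    exact hM

/-- The matrix of intersection sizes of the fibres of two functions. -/
noncomputable def Nm (f : Ω → ι) (g : Ω → ι') : Matrix ι ι' ℝ :=
  Matrix.of fun p q => ∑ z, if f z = p ∧ g z = q then (1 : ℝ) else 0

omit [DecidableEq Ω] in
theorem sub_mul_Pm [Fintype ι'] {k : ℝ} (h : Ω → ι) (f : Ω → ι') (g : Ω → ι'')
    (A : Matrix ι ι' ℝ) :
    A.submatrix h f * Pm k g = (1 / k) • (A * Nm f g).submatrix h g := by
  ext x y
  rw [Matrix.mul_apply, Matrix.smul_apply, Matrix.submatrix_apply, Matrix.mul_apply, smul_eq_mul]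
  simp only [Matrix.submatrix_apply, Pm, Matrix.of_apply, Nm]
  simp only [Finset.mul_sum]
  rw [Finset.sum_comm]
  refine Finset.sum_congr rfl fun z _ => ?_
  rw [Finset.sum_eq_single (f z)]
  · by_cases e : g z = g y
    · rw [if_pos e, if_pos ⟨rfl, e⟩]
      ring
    · rw [if_neg e, if_neg fun h => e h.2]
      ring
  · intro p _ hp
    rw [if_neg fun h => hp h.1.symm]
    ring
  · intro h
    exact absurd (Finset.mem_univ _) h

omit [DecidableEq Ω] in
theorem Pm_eq {k : ℝ} (h : Ω → ι) : Pm k h = (1 / k) • (1 : Matrix ι ι ℝ).submatrix h h := by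
  ext x y
  simp only [Pm, Matrix.of_apply, Matrix.smul_apply, Matrix.submatrix_apply, smul_eq_mul,
    Matrix.one_apply]
  by_cases e : h x = h y
  · rw [if_pos e, if_pos e, mul_one]
  · rw [if_neg e, if_neg e, mul_zero]

/-- `J`. -/
def J (ι : Type) : Matrix ι ι ℝ := Matrix.of fun _ _ => 1

omit [DecidableEq Ω] in
theorem sub_J [Nonempty Ω] (h : Ω → ι) :
    (J ι).submatrix h h = (Fintype.card Ω : ℝ) • U Ω := by
  have hc0 : (Fintype.card Ω : ℝ) ≠ 0 := by exact_mod_cast Fintype.card_ne_zero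
  ext x y
  simp only [J, Matrix.submatrix_apply, Matrix.of_apply, Matrix.smul_apply, U_apply, smul_eq_mul]
  field_simp

omit [DecidableEq Ω] in
theorem sub_one {k : ℝ} (hk0 : k ≠ 0) (h : Ω → ι) :
    (1 : Matrix ι ι ℝ).submatrix h h = k • Pm k h := by
  rw [Pm_eq, smul_smul, mul_one_div_cancel hk0, one_smul]

omit [DecidableEq Ω] in
theorem two_step [Fintype ι] [Nonempty Ω] {k a b : ℝ} (hk0 : k ≠ 0) (h f : Ω → ι)
    (hN : Nm h f * Nm f h = a • (1 : Matrix ι ι ℝ) + b • J ι) :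
    Pm k h * Pm k f * Pm k h = (a / k ^ 2) • Pm k h + (b * Fintype.card Ω / k ^ 3) • U Ω := by
  conv_lhs => rw [Pm_eq (k := k) h]
  rw [Matrix.smul_mul, Matrix.smul_mul, sub_mul_Pm h h f, Matrix.smul_mul, ← Pm_eq,
    sub_mul_Pm h f h, one_mul, hN]
  rw [show (a • (1 : Matrix ι ι ℝ) + b • J ι).submatrix h h =
    a • (1 : Matrix ι ι ℝ).submatrix h h + b • (J ι).submatrix h h from rfl, sub_J,
    sub_one hk0 h, smul_smul, smul_smul, smul_add, smul_smul, smul_smul, smul_smul, smul_smul]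
  congr 2
  · field_simp
  · field_simp

omit [DecidableEq Ω] in
theorem three_step [Fintype ι] [Nonempty Ω] {k a b : ℝ} (hk0 : k ≠ 0) (h f g : Ω → ι)
    (hN : Nm h f * Nm f g * Nm g h + Nm h g * Nm g f * Nm f h = a • (1 : Matrix ι ι ℝ) + b • J ι) :
    Pm k h * Pm k f * Pm k g * Pm k h + Pm k h * Pm k g * Pm k f * Pm k h =
      (a / k ^ 3) • Pm k h + (b * Fintype.card Ω / k ^ 4) • U Ω := by
  have key : ∀ f g : Ω → ι, Pm k h * Pm k f * Pm k g * Pm k h =
      (1 / k ^ 4) • (Nm h f * Nm f g * Nm g h).submatrix h h := by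
    intro f g
    conv_lhs => rw [Pm_eq (k := k) h]
    rw [Matrix.smul_mul, Matrix.smul_mul, Matrix.smul_mul, sub_mul_Pm h h f, Matrix.smul_mul,
      Matrix.smul_mul, sub_mul_Pm h f g, Matrix.smul_mul, ← Pm_eq,
      sub_mul_Pm h g h, one_mul, smul_smul, smul_smul, smul_smul]
    congr 1
    field_simp
  rw [key, key, ← smul_add, show (Nm h f * Nm f g * Nm g h).submatrix h h +
    (Nm h g * Nm g f * Nm f h).submatrix h h = (Nm h f * Nm f g * Nm g h +
    Nm h g * Nm g f * Nm f h).submatrix h h from rfl, hN]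
  rw [show (a • (1 : Matrix ι ι ℝ) + b • J ι).submatrix h h =
    a • (1 : Matrix ι ι ℝ).submatrix h h + b • (J ι).submatrix h h from rfl, sub_J,
    sub_one hk0 h, smul_smul, smul_smul, smul_add, smul_smul, smul_smul]
  congr 2
  · field_simp
  · field_simp

theorem A_pair [Nonempty Ω] {k ρ : ℝ} (hk0 : k ≠ 0) {h f : Ω → ι} (hh : Fib k h)
    (hf : Fib k f) (e : Pm k h * Pm k f * Pm k h = ρ • Pm k h + (1 - ρ) • U Ω) :
    (Pm k h - U Ω) * (Pm k f - U Ω) * (Pm k h - U Ω) = ρ • (Pm k h - U Ω) := by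
  have hUU := U_U (Ω := Ω)
  have hhU := Pm_U hk0 hh
  have hUh := U_Pm hk0 hh
  have hfU := Pm_U hk0 hf
  have hUf := U_Pm hk0 hf
  have e0 : Pm k h * Pm k f * U Ω = U Ω := by rw [mul_assoc, hfU, hhU]
  simp only [sub_mul, mul_sub, e, hhU, hUh, hfU, hUf, hUU, e0]
  module

theorem A_triple [Nonempty Ω] {k κ : ℝ} (hk0 : k ≠ 0) {h f g : Ω → ι} (hh : Fib k h)
    (hf : Fib k f) (hg : Fib k g)
    (e : Pm k h * Pm k f * Pm k g * Pm k h + Pm k h * Pm k g * Pm k f * Pm k h =
      κ • Pm k h + (2 - κ) • U Ω) :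
    (Pm k h - U Ω) * ((Pm k f - U Ω) * (Pm k g - U Ω)) * (Pm k h - U Ω) +
    (Pm k h - U Ω) * ((Pm k g - U Ω) * (Pm k f - U Ω)) * (Pm k h - U Ω) =
      κ • (Pm k h - U Ω) := by
  have hUU := U_U (Ω := Ω)
  have hhU := Pm_U hk0 hh
  have hUh := U_Pm hk0 hh
  have hfU := Pm_U hk0 hf
  have hUf := U_Pm hk0 hf
  have hgU := Pm_U hk0 hg
  have hUg := U_Pm hk0 hg
  have e1 : ∀ f g : Ω → ι, Fib k f → Fib k g →
      (Pm k h - U Ω) * ((Pm k f - U Ω) * (Pm k g - U Ω)) * (Pm k h - U Ω) =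
      Pm k h * Pm k f * Pm k g * Pm k h - U Ω := by
    intro f g hf hg
    have hfU := Pm_U hk0 hf
    have hUf := U_Pm hk0 hf
    have hgU := Pm_U hk0 hg
    have hUg := U_Pm hk0 hg
    have h1 : (Pm k h - U Ω) * ((Pm k f - U Ω) * (Pm k g - U Ω)) =
        Pm k h * Pm k f * Pm k g - U Ω := by
      simp only [sub_mul, mul_sub, hhU, hUh, hfU, hUf, hgU, hUg, hUU, ← mul_assoc]
      abel
    rw [h1]
    simp only [sub_mul, mul_sub, hhU, hUh, hfU, hUf, hgU, hUg, hUU, mul_assoc]
    abel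
  rw [e1 f g hf hg, e1 g f hg hf]
  rw [show Pm k h * Pm k f * Pm k g * Pm k h - U Ω + (Pm k h * Pm k g * Pm k f * Pm k h - U Ω) =
    (Pm k h * Pm k f * Pm k g * Pm k h + Pm k h * Pm k g * Pm k f * Pm k h) - (2 : ℝ) • U Ω by
      rw [two_smul]; abel, e]
  module

/-- The balance condition for three partitions. -/
theorem balance3 [Fintype ι] [Nonempty Ω] (f : Fin 3 → Ω → ι) {k a b a' b' ρ κ : ℝ} (hk0 : k ≠ 0)
    (hk : ∀ i, Fib k (f i)) (hkc : k ≠ Fintype.card Ω)
    (h2 : ∀ i j, i ≠ j → Nm (f i) (f j) * Nm (f j) (f i) = a • (1 : Matrix ι ι ℝ) + b • J ι)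
    (h3 : ∀ i j l, i ≠ j → j ≠ l → i ≠ l →
      Nm (f i) (f j) * Nm (f j) (f l) * Nm (f l) (f i) +
      Nm (f i) (f l) * Nm (f l) (f j) * Nm (f j) (f i) = a' • (1 : Matrix ι ι ℝ) + b' • J ι)
    (e1 : a / k ^ 2 = ρ) (e2 : b * Fintype.card Ω / k ^ 3 = 1 - ρ) (e3 : a' / k ^ 3 = κ)
    (e4 : b' * Fintype.card Ω / k ^ 4 = 2 - κ) (hρ0 : 0 < ρ) (hρ1 : ρ < 1)
    (hμ0 : 0 < 2 * ρ - κ) (hμ1 : 2 * ρ - κ < 1 - ρ) :
    ∀ F ∈ Set.range (fun i => Setoid.ker (f i)),
      ∀ 𝓛 ⊆ Set.range (fun i => Setoid.ker (f i)) \ {F}, 𝓛.Nonempty →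
        CompletelySymmetric ((X F)ᵀ * (1 - P 𝓛) * X F) ∧ (X F)ᵀ * (1 - P 𝓛) * X F ≠ 0 ∧
          ∃ μ : ℝ, 0 < μ ∧ μ < 1 ∧ Q {F} * Q 𝓛 * Q {F} = μ • Q {F} := by
  rintro F ⟨i, rfl⟩ 𝓛 h𝓛 hne
  have pair : ∀ i j, i ≠ j → (Pm k (f i) - U Ω) * (Pm k (f j) - U Ω) * (Pm k (f i) - U Ω) =
      ρ • (Pm k (f i) - U Ω) := by
    intro i j hij
    refine A_pair hk0 (hk i) (hk j) ?_
    rw [two_step hk0 (f i) (f j) (h2 i j hij), e1, e2]
  have hex : ∀ i : Fin 3, ∃ j l : Fin 3, i ≠ j ∧ j ≠ l ∧ i ≠ l ∧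
      ∀ t, t = i ∨ t = j ∨ t = l := by
    decide
  obtain ⟨j, l, hij, hjl, hil, hall⟩ := hex i
  have hsub : 𝓛 ⊆ {Setoid.ker (f j), Setoid.ker (f l)} := by
    intro L hL
    obtain ⟨⟨t, rfl⟩, hL2⟩ := h𝓛 hL
    rcases hall t with rfl | rfl | rfl
    · exact absurd rfl hL2
    · exact Or.inl rfl
    · exact Or.inr rfl
  rcases Set.subset_pair_iff_eq.1 hsub with rfl | rfl | rfl | rfl
  · exact absurd rfl hne.ne_empty
  · refine final_step hk0 (hk i) hkc _ hρ0 hρ1 ?_ ?_ ?_
    · rw [P_single hk0 (hk j)]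
      exact pair i j hij
    · rw [P_single hk0 (hk j)]
      exact Pm_U hk0 (hk j)
    · rw [P_single hk0 (hk j)]
      exact U_Pm hk0 (hk j)
  · refine final_step hk0 (hk i) hkc _ hρ0 hρ1 ?_ ?_ ?_
    · rw [P_single hk0 (hk l)]
      exact pair i l hil
    · rw [P_single hk0 (hk l)]
      exact Pm_U hk0 (hk l)
    · rw [P_single hk0 (hk l)]
      exact U_Pm hk0 (hk l)
  · have htri := A_triple hk0 (hk i) (hk j) (hk l) (κ := κ) (by
      rw [three_step hk0 (f i) (f j) (f l) (h3 i j l hij hjl hil), e3, e4])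
    have hUU := U_U (Ω := Ω)
    have hjU := Pm_U hk0 (hk j)
    have hUj := U_Pm hk0 (hk j)
    have hlU := Pm_U hk0 (hk l)
    have hUl := U_Pm hk0 (hk l)
    have hρ' : 1 - ρ ≠ 0 := by linarith
    have hP := P_pair hk0 hρ1.ne (hk j) (hk l) (pair j l hjl) (pair l j hjl.symm)
    refine final_step (μ := (2 * ρ - κ) / (1 - ρ)) hk0 (hk i) hkc _
      (div_pos hμ0 (by linarith)) ((div_lt_one (by linarith)).2 hμ1) ?_ ?_ ?_
    · rw [hP, add_sub_cancel_left, mul_smul_comm, smul_mul_assoc]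
      have h5 : (Pm k (f i) - U Ω) * (Pm k (f j) - U Ω + (Pm k (f l) - U Ω) -
          (Pm k (f j) - U Ω) * (Pm k (f l) - U Ω) - (Pm k (f l) - U Ω) * (Pm k (f j) - U Ω)) *
          (Pm k (f i) - U Ω) = (2 * ρ - κ) • (Pm k (f i) - U Ω) := by
        have h6 := pair i j hij
        have h7 := pair i l hil
        generalize Pm k (f i) - U Ω = A at *
        generalize Pm k (f j) - U Ω = B at *
        generalize Pm k (f l) - U Ω = C at *
        rw [mul_sub, mul_sub, mul_add, sub_mul, sub_mul, add_mul, h6, h7, sub_sub, htri]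
        module
      rw [h5, smul_smul]
      congr 1
      field_simp
    · rw [hP, add_mul, hUU, smul_mul_assoc]
      have : (Pm k (f j) - U Ω + (Pm k (f l) - U Ω) -
          (Pm k (f j) - U Ω) * (Pm k (f l) - U Ω) - (Pm k (f l) - U Ω) * (Pm k (f j) - U Ω)) *
          U Ω = 0 := by
        have h6 : (Pm k (f j) - U Ω) * U Ω = 0 := by rw [sub_mul, hjU, hUU, sub_self]
        have h7 : (Pm k (f l) - U Ω) * U Ω = 0 := by rw [sub_mul, hlU, hUU, sub_self]
        rw [sub_mul, sub_mul, add_mul, h6, h7, mul_assoc, mul_assoc, h6, h7]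
        simp
      rw [this, smul_zero, add_zero]
    · rw [hP, mul_add, hUU, mul_smul_comm]
      have : U Ω * (Pm k (f j) - U Ω + (Pm k (f l) - U Ω) -
          (Pm k (f j) - U Ω) * (Pm k (f l) - U Ω) - (Pm k (f l) - U Ω) * (Pm k (f j) - U Ω)) =
          0 := by
        have h6 : U Ω * (Pm k (f j) - U Ω) = 0 := by rw [mul_sub, hUj, hUU, sub_self]
        have h7 : U Ω * (Pm k (f l) - U Ω) = 0 := by rw [mul_sub, hUl, hUU, sub_self]
        rw [mul_sub, mul_sub, mul_add, h6, h7, ← mul_assoc, ← mul_assoc, h6, h7]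
        simp
      rw [this, smul_zero, add_zero]

end General

section General2

variable {Ω : Type} [Fintype Ω] {ι ι' : Type} [DecidableEq ι] [DecidableEq ι']

theorem Nm_transpose (f : Ω → ι) (g : Ω → ι') : Nm g f = (Nm f g)ᵀ := by
  ext p q
  simp only [Nm, Matrix.of_apply, Matrix.transpose_apply]
  exact Finset.sum_congr rfl fun z _ => if_congr and_comm rfl rfl

theorem Nm_same {k : ℝ} {f : Ω → ι} (hk : Fib k f) (g : Ω → ι')
    (h : Setoid.ker f = Setoid.ker g) (x : Ω) : Nm f g (f x) (g x) = k := by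
  rw [← hk x]
  simp only [Nm, Matrix.of_apply]
  refine Finset.sum_congr rfl fun z _ => if_congr ?_ rfl rfl
  constructor
  · intro e
    exact e.1.symm
  · intro e
    refine ⟨e.symm, ?_⟩
    have : Setoid.ker f z x := e.symm
    rw [h] at this
    exact this

theorem N_mk (f : Ω → ι) (g : Ω → ι') (x y : Ω) :
    N (Setoid.ker f) (Setoid.ker g) (Quotient.mk _ x) (Quotient.mk _ y) =
      Nm f g (f x) (g y) := by
  rw [N, Matrix.mul_apply]
  simp only [Nm, Matrix.of_apply, Matrix.transpose_apply]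
  refine Finset.sum_congr rfl fun z _ => ?_
  by_cases h1 : f z = f x
  · rw [X_one (Quotient.sound (h1 : f z = f x)), one_mul]
    by_cases h2 : g z = g y
    · rw [X_one (Quotient.sound (h2 : g z = g y)), if_pos ⟨h1, h2⟩]
    · rw [X_zero fun e => h2 (Quotient.exact e : g z = g y), if_neg fun h => h2 h.2]
  · rw [X_zero fun e => h1 (Quotient.exact e : f z = f x), zero_mul, if_neg fun h => h1 h.1]

theorem X_sum (F : Setoid Ω) [Fintype (Quotient F)] (z : Ω) : ∑ p, X F z p = 1 := by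
  rw [Finset.sum_eq_single (Quotient.mk F z)]
  · exact X_one rfl
  · intro p _ hp
    exact X_zero hp.symm
  · intro h
    exact absurd (Finset.mem_univ _) h

theorem meanEntry_eq (F G : Setoid Ω) : meanEntry F G =
    (Fintype.card Ω : ℝ) / (Nat.card (Quotient F) * Nat.card (Quotient G)) := by
  have : Fintype (Quotient F) := Fintype.ofFinite _
  have : Fintype (Quotient G) := Fintype.ofFinite _
  rw [meanEntry]
  congr 1
  rw [finsum_eq_sum_of_fintype]
  simp only [finsum_eq_sum_of_fintype, N, Matrix.mul_apply, Matrix.transpose_apply]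
  calc ∑ p, ∑ q, ∑ z, X F z p * X G z q = ∑ p, ∑ z, ∑ q, X F z p * X G z q := by
        refine Finset.sum_congr rfl fun p _ => Finset.sum_comm
    _ = ∑ p, ∑ z, X F z p := by
        refine Finset.sum_congr rfl fun p _ => Finset.sum_congr rfl fun z _ => ?_
        rw [← Finset.mul_sum, X_sum, mul_one]
    _ = ∑ z, ∑ p, X F z p := Finset.sum_comm
    _ = Fintype.card Ω := by
        simp only [X_sum]
        simp

theorem partSize_of_fib {k : ℕ} {f : Ω → ι} (hk : Fib (k : ℝ) f) : PartSize (Setoid.ker f) k := by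
  classical
  intro p
  induction p using Quotient.inductionOn with
  | h y =>
    have h1 := hk y
    rw [Nat.card_eq_fintype_card, Fintype.card_subtype, Finset.card_filter]
    have h2 : ((∑ x, if Quotient.mk (Setoid.ker f) x = Quotient.mk (Setoid.ker f) y then 1 else 0 :
        ℕ) : ℝ) = (k : ℝ) := by
      rw [← h1]
      push_cast
      refine Finset.sum_congr rfl fun x _ => if_congr ?_ rfl rfl
      constructor
      · intro e
        exact (Quotient.exact e : f x = f y).symm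
      · intro e
        exact Quotient.sound (e.symm : f x = f y)
    exact_mod_cast h2

theorem card_quot {n : ℕ} {f : Ω → Fin n} (hf : Function.Surjective f) :
    Nat.card (Quotient (Setoid.ker f)) = n := by
  rw [Nat.card_congr (Setoid.quotientKerEquivOfSurjective f hf), Nat.card_eq_fintype_card,
    Fintype.card_fin]

end General2

section Concrete

open Pool.Agent.Q157.Youden

theorem sumF {β : Type} [DecidableEq β] {M : Type*} [AddCommMonoidWithOne M] (t : Fin 3)
    (p : Fin 27) (h : Pt → β) (q : β) :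
    (∑ z, if F t z = p ∧ h z = q then (1 : M) else 0) =
      ∑ a, if h (a, vinv t a p) = q then (1 : M) else 0 := by
  rw [Fintype.sum_prod_type]
  refine Finset.sum_congr rfl fun a _ => ?_
  rw [Finset.sum_eq_single (vinv t a p)]
  · have : F t (a, vinv t a p) = p := (F_iff t a p _).2 rfl
    exact if_congr (by simp [this]) rfl rfl
  · intro v _ hv
    rw [if_neg fun e => hv ((F_iff t a p v).1 e.1)]
  · intro h
    exact absurd (Finset.mem_univ _) h

theorem sumG {β : Type} [DecidableEq β] {M : Type*} [AddCommMonoidWithOne M] (i : Fin 3)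
    (w : Fin 13) (h : Pt → β) (q : β) :
    (∑ z, if G i z = w ∧ h z = q then (1 : M) else 0) =
      ∑ v, if h (ainv i v w, v) = q then (1 : M) else 0 := by
  rw [Fintype.sum_prod_type, Finset.sum_comm]
  refine Finset.sum_congr rfl fun v _ => ?_
  rw [Finset.sum_eq_single (ainv i v w)]
  · have : G i (ainv i v w, v) = w := (G_iff i v w _).2 rfl
    exact if_congr (by simp [this]) rfl rfl
  · intro a _ ha
    rw [if_neg fun e => ha ((G_iff i v w a).1 e.1)]
  · intro h
    exact absurd (Finset.mem_univ _) h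

theorem fibF (t : Fin 3) : Fib (13 : ℝ) (F t) := by
  intro x
  have := sumF (M := ℝ) t (F t x) (fun _ => ()) ()
  simp only [and_true, if_true] at this
  simp only [eq_comm (a := F t x)]
  rw [this]
  simp

theorem fibG (i : Fin 3) : Fib (27 : ℝ) (G i) := by
  intro x
  have := sumG (M := ℝ) i (G i x) (fun _ => ()) ()
  simp only [and_true, if_true] at this
  simp only [eq_comm (a := G i x)]
  rw [this]
  simp

theorem surjF (t : Fin 3) : Function.Surjective (F t) := fun p =>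
  ⟨(0, vinv t 0 p), (F_iff t 0 p _).2 rfl⟩

theorem surjG (i : Fin 3) : Function.Surjective (G i) := fun w =>
  ⟨(ainv i 0 w, 0), (G_iff i 0 w _).2 rfl⟩

/-- The Paley matrix. -/
def S : Matrix (Fin 27) (Fin 27) ℝ := Matrix.of fun p q => (s p q : ℝ)

theorem NmF_succ (t : Fin 3) : Nm (F t) (F (t + 1)) = S := by
  ext p q
  simp only [Nm, Matrix.of_apply, S]
  rw [sumF, ← FF_count t p q]
  push_cast
  rfl

theorem NmF (t u : Fin 3) (h : t ≠ u) :
    (u = t + 1 ∧ Nm (F t) (F u) = S ∧ Nm (F u) (F t) = Sᵀ) ∨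
    (t = u + 1 ∧ Nm (F t) (F u) = Sᵀ ∧ Nm (F u) (F t) = S) := by
  have hc : ∀ t u : Fin 3, t ≠ u → u = t + 1 ∨ t = u + 1 := by decide
  rcases hc t u h with rfl | rfl
  · left
    exact ⟨rfl, NmF_succ t, by rw [Nm_transpose (F t), NmF_succ]⟩
  · right
    exact ⟨rfl, by rw [Nm_transpose (F u), NmF_succ], NmF_succ u⟩

theorem S_mul_St : S * Sᵀ = (7 : ℝ) • (1 : Matrix (Fin 27) (Fin 27) ℝ) + (6 : ℝ) • J (Fin 27) := by
  ext p q
  have h := s_mul_t p q
  simp only [Matrix.mul_apply, S, Matrix.of_apply, Matrix.transpose_apply, Matrix.add_apply,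
    Matrix.smul_apply, J, Matrix.one_apply, smul_eq_mul]
  have h' : (∑ r : Fin 27, (s p r : ℝ) * (s q r : ℝ)) = if p = q then 13 else 6 := by
    exact_mod_cast h
  rw [h']
  split_ifs <;> norm_num

theorem St_mul_S : Sᵀ * S = (7 : ℝ) • (1 : Matrix (Fin 27) (Fin 27) ℝ) + (6 : ℝ) • J (Fin 27) := by
  ext p q
  have h := s_t_mul p q
  simp only [Matrix.mul_apply, S, Matrix.of_apply, Matrix.transpose_apply, Matrix.add_apply,
    Matrix.smul_apply, J, Matrix.one_apply, smul_eq_mul]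
  have h' : (∑ r : Fin 27, (s r p : ℝ) * (s r q : ℝ)) = if p = q then 13 else 6 := by
    exact_mod_cast h
  rw [h']
  split_ifs <;> norm_num

theorem S_sq : S * S = (6 : ℝ) • S + (7 : ℝ) • Sᵀ := by
  ext p q
  have h := s_sq p q
  simp only [Matrix.mul_apply, S, Matrix.of_apply, Matrix.transpose_apply, Matrix.add_apply,
    Matrix.smul_apply, smul_eq_mul]
  exact_mod_cast h

theorem S_add : S + Sᵀ = J (Fin 27) - 1 := by
  ext p q
  have h := s_add p q
  simp only [S, Matrix.of_apply, Matrix.transpose_apply, Matrix.add_apply, Matrix.sub_apply,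
    Matrix.one_apply, J]
  have h' : (s p q : ℝ) + s q p + (if p = q then 1 else 0) = 1 := by exact_mod_cast h
  linarith

theorem S_cube : S * S * S + Sᵀ * Sᵀ * Sᵀ =
    (20 : ℝ) • (1 : Matrix (Fin 27) (Fin 27) ℝ) + (162 : ℝ) • J (Fin 27) := by
  have hJ : (J (Fin 27))ᵀ = J (Fin 27) := rfl
  have h1 : S * S * S = (36 : ℝ) • S + (42 : ℝ) • Sᵀ + (49 : ℝ) • (1 : Matrix _ _ ℝ) +
      (42 : ℝ) • J (Fin 27) := by
    rw [S_sq, Matrix.add_mul, Matrix.smul_mul, Matrix.smul_mul, S_sq, St_mul_S]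
    module
  have h2 : Sᵀ * Sᵀ * Sᵀ = (36 : ℝ) • Sᵀ + (42 : ℝ) • S + (49 : ℝ) • (1 : Matrix _ _ ℝ) +
      (42 : ℝ) • J (Fin 27) := by
    have := congrArg Matrix.transpose h1
    rw [Matrix.transpose_mul, Matrix.transpose_mul, ← Matrix.mul_assoc] at this
    rw [this]
    simp only [Matrix.transpose_add, Matrix.transpose_smul, Matrix.transpose_transpose,
      Matrix.transpose_one, hJ]
  rw [h1, h2]
  have h3 := S_add
  calc _ = (78 : ℝ) • (S + Sᵀ) + (98 : ℝ) • (1 : Matrix (Fin 27) (Fin 27) ℝ) +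
        (84 : ℝ) • J (Fin 27) := by module
    _ = _ := by
      rw [h3]
      module

theorem NmG (i j : Fin 3) (h : i ≠ j) :
    Nm (G i) (G j) = (1 : Matrix (Fin 13) (Fin 13) ℝ) + (2 : ℝ) • J (Fin 13) := by
  ext w w'
  simp only [Nm, Matrix.of_apply, Matrix.add_apply, Matrix.smul_apply, J, smul_eq_mul,
    Matrix.one_apply]
  rw [sumG]
  have h' : (∑ v : Fin 27, if G j (ainv i v w, v) = w' then (1 : ℝ) else 0) =
      if w = w' then 3 else 2 := by exact_mod_cast GG_count i j h w w'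
  rw [h']
  split_ifs <;> norm_num

theorem J_mul : J (Fin 13) * J (Fin 13) = (13 : ℝ) • J (Fin 13) := by
  ext p q
  simp [J, Matrix.mul_apply]

theorem G_two : ((1 : Matrix (Fin 13) (Fin 13) ℝ) + (2 : ℝ) • J (Fin 13)) *
    (1 + (2 : ℝ) • J (Fin 13)) = (1 : ℝ) • (1 : Matrix (Fin 13) (Fin 13) ℝ) +
      (56 : ℝ) • J (Fin 13) := by
  rw [add_mul, mul_add, mul_add, one_mul, one_mul, mul_one, smul_mul_assoc, mul_smul_comm, J_mul]
  module

theorem G_three : ((1 : Matrix (Fin 13) (Fin 13) ℝ) + (2 : ℝ) • J (Fin 13)) *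
    (1 + (2 : ℝ) • J (Fin 13)) * (1 + (2 : ℝ) • J (Fin 13)) +
    (1 + (2 : ℝ) • J (Fin 13)) *
    (1 + (2 : ℝ) • J (Fin 13)) * (1 + (2 : ℝ) • J (Fin 13)) =
      (2 : ℝ) • (1 : Matrix (Fin 13) (Fin 13) ℝ) + (3028 : ℝ) • J (Fin 13) := by
  rw [G_two, add_mul, mul_add, mul_add, smul_mul_assoc, smul_mul_assoc, smul_mul_assoc,
    mul_smul_comm, one_mul, one_mul, mul_one, smul_mul_assoc, mul_smul_comm, J_mul]
  module

theorem cardPt : (Fintype.card Pt : ℝ) = 351 := by
  have : Fintype.card Pt = 351 := by simp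
  rw [this]
  norm_num

theorem balF : UniversalBalance (Set.range fun t => Setoid.ker (F t)) := by
  refine ⟨?_, ?_, ?_⟩
  · rintro _ ⟨t, rfl⟩
    exact ⟨13, partSize_of_fib (by exact_mod_cast fibF t)⟩
  · rintro _ ⟨t, rfl⟩ _ ⟨u, rfl⟩ hne p q
    have htu : t ≠ u := by
      rintro rfl
      exact hne rfl
    have hm : meanEntry (Setoid.ker (F t)) (Setoid.ker (F u)) = 13 / 27 := by
      rw [meanEntry_eq, card_quot (surjF t), card_quot (surjF u), cardPt]
      norm_num
    have h0 : ⌊(13 / 27 : ℝ)⌋ = 0 := by norm_num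
    have h1 : ⌈(13 / 27 : ℝ)⌉ = 1 := by norm_num
    induction p using Quotient.inductionOn with
    | h x =>
      induction q using Quotient.inductionOn with
      | h y =>
        simp only
        rw [hm, h0, h1, N_mk]
        rcases NmF t u htu with ⟨_, e, _⟩ | ⟨_, e, _⟩
        · rw [e]
          rcases s_le (F t x) (F u y) with h | h
          · left
            simp [S, h]
          · right
            simp [S, h]
        · rw [e]
          rcases s_le (F u y) (F t x) with h | h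
          · left
            simp [S, h]
          · right
            simp [S, h]
  · refine balance3 F (k := 13) (a := 7) (b := 6) (a' := 20) (b' := 162) (ρ := 7 / 169)
      (κ := 20 / 2197) (by norm_num) fibF ?_ ?_ ?_ (by norm_num) ?_ (by norm_num) ?_ (by norm_num)
      (by norm_num) (by norm_num) (by norm_num)
    · rw [cardPt]
      norm_num
    · intro i j hij
      rcases NmF i j hij with ⟨_, e1, e2⟩ | ⟨_, e1, e2⟩
      · rw [e1, e2, S_mul_St]
      · rw [e1, e2, St_mul_S]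
    · intro i j l hij hjl hil
      have hc : ∀ i j l : Fin 3, (i ≠ j ∧ j ≠ l ∧ i ≠ l) →
          ((j = i + 1 ∧ l = j + 1 ∧ i = l + 1) ∨ (i = j + 1 ∧ j = l + 1 ∧ l = i + 1)) := by decide
      rcases hc i j l ⟨hij, hjl, hil⟩ with ⟨h1, h2, h3⟩ | ⟨h1, h2, h3⟩
      · have a1 : Nm (F i) (F j) = S := by rw [h1]; exact NmF_succ i
        have a2 : Nm (F j) (F l) = S := by rw [h2]; exact NmF_succ j
        have a3 : Nm (F l) (F i) = S := by rw [h3]; exact NmF_succ l
        rw [Nm_transpose (F l) (F i), Nm_transpose (F j) (F l), Nm_transpose (F i) (F j), a1, a2,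
          a3]
        exact S_cube
      · have a1 : Nm (F j) (F i) = S := by rw [h1]; exact NmF_succ j
        have a2 : Nm (F l) (F j) = S := by rw [h2]; exact NmF_succ l
        have a3 : Nm (F i) (F l) = S := by rw [h3]; exact NmF_succ i
        rw [Nm_transpose (F j) (F i), Nm_transpose (F l) (F j), Nm_transpose (F i) (F l), a1, a2,
          a3, add_comm]
        exact S_cube
    · rw [cardPt]
      norm_num
    · rw [cardPt]
      norm_num

theorem balG : UniversalBalance (Set.range fun i => Setoid.ker (G i)) := by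
  refine ⟨?_, ?_, ?_⟩
  · rintro _ ⟨t, rfl⟩
    exact ⟨27, partSize_of_fib (by exact_mod_cast fibG t)⟩
  · rintro _ ⟨t, rfl⟩ _ ⟨u, rfl⟩ hne p q
    have htu : t ≠ u := by
      rintro rfl
      exact hne rfl
    have hm : meanEntry (Setoid.ker (G t)) (Setoid.ker (G u)) = 27 / 13 := by
      rw [meanEntry_eq, card_quot (surjG t), card_quot (surjG u), cardPt]
      norm_num
    have h0 : ⌊(27 / 13 : ℝ)⌋ = 2 := by
      rw [Int.floor_eq_iff]
      norm_num
    have h1 : ⌈(27 / 13 : ℝ)⌉ = 3 := by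
      rw [Int.ceil_eq_iff]
      norm_num
    induction p using Quotient.inductionOn with
    | h x =>
      induction q using Quotient.inductionOn with
      | h y =>
        simp only
        rw [hm, h0, h1, N_mk, NmG t u htu]
        by_cases h : G t x = G u y
        · right
          simp [J, h]
          norm_num
        · left
          simp [J, h]
  · refine balance3 G (k := 27) (a := 1) (b := 56) (a' := 2) (b' := 3028) (ρ := 1 / 729)
      (κ := 2 / 19683) (by norm_num) fibG ?_ ?_ ?_ (by norm_num) ?_ (by norm_num) ?_ (by norm_num)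
      (by norm_num) (by norm_num) (by norm_num)
    · rw [cardPt]
      norm_num
    · intro i j hij
      rw [NmG i j hij, NmG j i hij.symm]
      exact G_two
    · intro i j l hij hjl hil
      rw [NmG i j hij, NmG j l hjl, NmG l i hil.symm, NmG i l hil, NmG l j hjl.symm,
        NmG j i hij.symm]
      exact G_three
    · rw [cardPt]
      norm_num
    · rw [cardPt]
      norm_num

theorem isYouden : IsYouden 13 27 (Set.range fun t => Setoid.ker (F t))
    (Set.range fun i => Setoid.ker (G i)) := by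
  classical
  refine ⟨by norm_num, by norm_num, ?_, ?_, ?_, ?_, balF, balG⟩
  · simp [Pt]
  · rintro _ ⟨t, rfl⟩
    exact ⟨card_quot (surjF t), partSize_of_fib (by exact_mod_cast fibF t)⟩
  · rintro _ ⟨t, rfl⟩
    exact ⟨card_quot (surjG t), partSize_of_fib (by exact_mod_cast fibG t)⟩
  · rintro _ ⟨t, rfl⟩ _ ⟨i, rfl⟩ p q
    induction p using Quotient.inductionOn with
    | h x =>
      induction q using Quotient.inductionOn with
      | h y =>
        rw [Nat.card_eq_fintype_card, Fintype.card_subtype, Finset.card_filter]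
        refine Eq.trans ?_ ((sumF (M := ℕ) t (F t x) (G i) (G i y)).trans
          (FG_count t i (F t x) (G i y)))
        refine Finset.sum_congr rfl fun z _ => ?_
        by_cases hc : F t z = F t x ∧ G i z = G i y
        · rw [if_pos hc, if_pos ⟨Quotient.sound (hc.1 : F t z = F t x),
            Quotient.sound (hc.2 : G i z = G i y)⟩]
        · rw [if_neg hc, if_neg fun e => hc ⟨(Quotient.exact e.1 : F t z = F t x),
            (Quotient.exact e.2 : G i z = G i y)⟩]

theorem injF : Function.Injective fun t => Setoid.ker (F t) := by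
  intro t u h
  by_contra hne
  have h1 := Nm_same (fibF t) (F u) h (0, 0)
  rcases NmF t u hne with ⟨_, e, _⟩ | ⟨_, e, _⟩
  · rw [e] at h1
    simp only [S, Matrix.of_apply] at h1
    rcases s_le (F t (0, 0)) (F u (0, 0)) with h2 | h2 <;> rw [h2] at h1 <;> norm_num at h1
  · rw [e] at h1
    simp only [S, Matrix.of_apply, Matrix.transpose_apply] at h1
    rcases s_le (F u (0, 0)) (F t (0, 0)) with h2 | h2 <;> rw [h2] at h1 <;> norm_num at h1

theorem injG : Function.Injective fun t => Setoid.ker (G t) := by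
  intro t u h
  by_contra hne
  have h1 := Nm_same (fibG t) (G u) h (0, 0)
  rw [NmG t u hne] at h1
  by_cases h2 : G t (0, 0) = G u (0, 0)
  · simp [J, h2] at h1
    norm_num at h1
  · simp [J, h2] at h1

end Concrete

/-- **Answer to Q1 (positive)**: there is an `n × m` Youden-type design with `n < m`, at least
three partitions in `𝓕` and at least three in `𝓖` (here `n = 13`, `m = 27`). -/
theorem result : ∃ (n m : ℕ) (Ω : Type) (_ : Fintype Ω) (_ : DecidableEq Ω)
    (𝓕 𝓖 : Set (Setoid Ω)), n < m ∧ IsYouden n m 𝓕 𝓖 ∧ 3 ≤ 𝓕.ncard ∧ 3 ≤ 𝓖.ncard := by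
  refine ⟨13, 27, Pool.Agent.Q157.Youden.Pt, inferInstance, inferInstance, _, _, by norm_num,
    isYouden, ?_, ?_⟩
  · rw [← Set.image_univ, Set.ncard_image_of_injective _ injF, Set.ncard_univ]
    simp
  · rw [← Set.image_univ, Set.ncard_image_of_injective _ injG, Set.ncard_univ]
    simp

end Pool.Agent.Results.MP_a8a68c_co.ThreeByThree
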